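import Pool.Agent.Helper37.Fd.StabR
import Pool.Agent.Helper37.Fd.Conn
import Pool.Agent.Helper37.Fd.Dens
import Pool.Agent.Helper37.Fd.CosetDet

/-!
# Project OPL (MP_6cbef8_nt), module Open: a finite part of `D` determines functions on an open set

The open set `O` contains almost all of the closure of `D` and does not depend on the functions.
-/

set_option autoImplicit false
open MeasureTheory

namespace Pool.Agent.Helper37.Op

open Pool.Agent.Helper37.Fc Pool.Agent.Helper37.Fd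

section

variable {E : Type*} [NontriviallyNormedField E] [IsUltrametricDist E]
  {G : Type*} [Group G] [TopologicalSpace G] [IsTopologicalGroup G] [CompactSpace G]

omit [IsUltrametricDist E] [CompactSpace G] in
/-- the span of the translates is stable under translation -/
private theorem almost_stable (f : C(G, E)) (h : G) (s : C(G, E))
    (hs : s ∈ Submodule.span E (Set.range (fun h : G => rt h f))) :
    rt h s ∈ Submodule.span E (Set.range (fun h : G => rt h f)) := by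
  induction hs using Submodule.span_induction with
  | mem x hx =>
    obtain ⟨h', rfl⟩ := hx
    refine Submodule.subset_span ⟨h * h', ?_⟩
    ext g
    show f (g * (h * h')) = f (g * h * h')
    rw [mul_assoc]
  | zero => exact Submodule.zero_mem _
  | add x y _ _ hx hy => exact Submodule.add_mem _ hx hy
  | smul a x _ hx => exact Submodule.smul_mem _ a hx

end

theorem open_determination (p : ℕ) [hp : Fact p.Prime] (E : Type*) [NontriviallyNormedField E]
    [IsUltrametricDist E] [ProperSpace E] [NormedAlgebra ℚ_[p] E] {G : Type*} [Group G]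
    [TopologicalSpace G] [IsTopologicalGroup G] [CompactSpace G] [TotallyDisconnectedSpace G]
    [MeasurableSpace G] [BorelSpace G] (μ : Measure G) [μ.IsHaarMeasure] [μ.Regular]
    (hfin : ∀ m : ℕ, {U : Subgroup G | IsOpen (U : Set G) ∧ U.index ≤ m}.Finite) (D : Set G)
    (m : ℕ) : ∃ (R : Set G) (O : Set G), R ⊆ D ∧ R.Finite ∧ IsOpen O ∧ μ (closure D \ O) = 0 ∧
      ∀ (f : C(G, E)) (S : Submodule E C(G, E)),
      FiniteDimensional E S → Module.finrank E S ≤ m → (∀ h, rt h f ∈ S) →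
      (∀ r ∈ R, f r = 0) → ∀ x ∈ O, f x = 0 := by
  have hp0 : (0 : ℝ) < (p : ℝ)⁻¹ ^ 2 := by
    have h1 : (0 : ℝ) < p := by exact_mod_cast hp.out.pos
    positivity
  obtain ⟨A₁, hA₁⟩ := exists_near E hp0
  obtain ⟨A, -, hA⟩ := exists_reps E
  have hA₁c : 1 ≤ A₁.card := by
    obtain ⟨a, ha, -⟩ := hA₁ 0 (by simp)
    exact Finset.card_pos.mpr ⟨a, ha⟩
  obtain ⟨N, hNo, hNle⟩ : ∃ N : Subgroup G, IsOpen (N : Set G) ∧
      ∀ H : Subgroup G, IsOpen (H : Set G) → H.index ≤ A₁.card ^ (m * m) → N ≤ H := by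
    refine ⟨sInf {U : Subgroup G | IsOpen (U : Set G) ∧ U.index ≤ A₁.card ^ (m * m)}, ?_, ?_⟩
    · rw [Subgroup.coe_sInf]
      exact (hfin _).isOpen_biInter fun U hU => hU.1
    · exact fun H hH hi => sInf_le ⟨hH, hi⟩
  have hq : Finite (G ⧸ N) := Subgroup.quotient_finite_of_isOpen N hNo
  have hcl : ∀ q : G ⧸ N, ∃ R : Set G, R ⊆ D ∧ R.Finite ∧
      (μ (closure D ∩ {x | q.out⁻¹ * x ∈ N}) ≠ 0 →
        ∃ (U : Subgroup G) (g : G), IsOpen (U : Set G) ∧ q.out⁻¹ * g ∈ N ∧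
          ∀ (f : C(G, E)) (S : Submodule E C(G, E)), FiniteDimensional E S →
            Module.finrank E S ≤ m → (∀ h, rt h f ∈ S) → (∀ r ∈ R, f r = 0) →
            ∀ x, g⁻¹ * x ∈ U → f x = 0) := by
    intro q
    by_cases hz : μ (closure D ∩ {x | q.out⁻¹ * x ∈ N}) = 0
    · exact ⟨∅, Set.empty_subset _, Set.finite_empty, fun h => absurd hz h⟩
    · obtain ⟨U, g, hU, -, hg, hK⟩ :=
        exists_dense_coset μ isClosed_closure hNo hz (A.card ^ m)
      obtain ⟨R, hRD, hRf, hR⟩ := coset_determination μ hfin A hA hU m hK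
      exact ⟨R, hRD, hRf, fun _ => ⟨U, g, hU, hg, hR⟩⟩
  choose R hRD hRf hR using hcl
  refine ⟨⋃ q, R q, ⋃ q : {q : G ⧸ N // μ (closure D ∩ {x | q.out⁻¹ * x ∈ N}) ≠ 0},
    {x | q.1.out⁻¹ * x ∈ N}, Set.iUnion_subset hRD, Set.finite_iUnion hRf, ?_, ?_, ?_⟩
  · refine isOpen_iUnion fun q => ?_
    exact hNo.preimage (continuous_const.mul continuous_id)
  · refine measure_mono_null ?_ (measure_iUnion_null
      (fun q : {q : G ⧸ N // μ (closure D ∩ {x | q.out⁻¹ * x ∈ N}) = 0} => q.2))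
    intro x hx
    have h3 : ((x : G ⧸ N)).out⁻¹ * x ∈ N := by
      rw [← QuotientGroup.eq, QuotientGroup.out_eq']
    refine Set.mem_iUnion.mpr ⟨⟨(x : G ⧸ N), ?_⟩, hx.1, h3⟩
    by_contra hne
    exact hx.2 (Set.mem_iUnion.mpr ⟨⟨(x : G ⧸ N), hne⟩, h3⟩)
  intro f S hS hfr hSf hr
  obtain ⟨S₀, hS₀⟩ : ∃ S₀, S₀ = Submodule.span E (Set.range (fun h : G => rt h f)) := ⟨_, rfl⟩
  have hle : S₀ ≤ S := by
    rw [hS₀]
    refine Submodule.span_le.mpr ?_
    rintro _ ⟨h, rfl⟩
    exact hSf h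
  have hfd : FiniteDimensional E S₀ := Submodule.finiteDimensional_of_le hle
  have hk : Module.finrank E S₀ ≤ m := (Submodule.finrank_mono hle).trans hfr
  have hst : ∀ h, ∀ s ∈ S₀, rt h s ∈ S₀ := by
    rw [hS₀]
    exact fun h s hs => almost_stable f h s hs
  have hfS : f ∈ S₀ := by
    rw [hS₀]
    refine Submodule.subset_span ⟨1, ?_⟩
    ext g
    show f (g * 1) = f g
    rw [mul_one]
  obtain ⟨H, hHo, hHi, hH⟩ := exists_stabr hp0 A₁ hA₁ S₀ hst
  have hNH : N ≤ H :=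
    hNle H hHo (hHi.trans (Nat.pow_le_pow_right hA₁c (Nat.mul_le_mul hk hk)))
  have hgood : ∀ q : G ⧸ N, μ (closure D ∩ {x | q.out⁻¹ * x ∈ N}) ≠ 0 →
      ∀ x, q.out⁻¹ * x ∈ N → f x = 0 := by
    intro q hq0 x hx
    obtain ⟨U, g, hU, hg, hdet⟩ := hR q hq0
    have h0 : ∀ u ∈ U, f (g * u) = 0 := fun u hu =>
      hdet f S hS hfr hSf (fun r hrr => hr r (Set.mem_iUnion.mpr ⟨q, hrr⟩)) (g * u)
        (by rw [inv_mul_cancel_left]; exact hu)
    have hgx : g⁻¹ * x ∈ N := by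
      have e : g⁻¹ * x = (q.out⁻¹ * g)⁻¹ * (q.out⁻¹ * x) := by group
      rw [e]
      exact N.mul_mem (N.inv_mem hg) hx
    have h2 := conn_zero p hfS hst (g := g) (h := g⁻¹ * x)
      (fun s hs => hH _ (hNH hgx) s hs) hU h0
    rwa [mul_inv_cancel_left] at h2
  intro x hx
  obtain ⟨q, hq0⟩ := Set.mem_iUnion.mp hx
  exact hgood q.1 q.2 x hq0

end Pool.Agent.Helper37.Op
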