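import Mathlib.NumberTheory.NumberField.InfinitePlace.Embeddings
import Mathlib.Analysis.Complex.Polynomial.Basic

/-!
# Project OPL (MP_6cbef8_nt), module Fin: finitely many polynomials with bounded roots

Monic polynomials of fixed degree over the rings of integers of number fields of bounded degree,
all of whose complex roots are bounded, have only finitely many images in a field.
-/

set_option autoImplicit false

namespace Pool.Agent.Helper37.Op

open Polynomial NumberField

/-- the values of bounded algebraic integers of bounded degree -/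
private theorem finite_vals (E : Type*) [Field E] [CharZero E] (m : ℕ) (B : ℝ) :
    {x : E | ∃ (M : Type) (_ : Field M) (_ : NumberField M) (ι : M →+* E) (a : 𝓞 M),
      Module.finrank ℚ M ≤ m ∧ (∀ σ : M →+* ℂ, ‖σ (a : M)‖ ≤ B) ∧ x = ι (a : M)}.Finite := by
  classical
  let C := Nat.ceil (max B 1 ^ m * (2 ^ m : ℝ))
  have := bUnion_roots_finite (algebraMap ℤ E) m (Set.finite_Icc (-C : ℤ) C)
  refine this.subset fun x hx => ?_
  obtain ⟨M, _, _, ι, a, hm, hσ, rfl⟩ := hx
  simp_rw [Set.mem_iUnion]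
  have hint : IsIntegral ℤ (a : M) := a.2
  have hmin := minpoly.isIntegrallyClosed_eq_field_fractions' ℚ hint
  refine ⟨minpoly ℤ (a : M), ⟨?_, fun i => ?_⟩, ?_⟩
  · rw [← (minpoly.monic hint).natDegree_map (algebraMap ℤ ℚ), ← hmin]
    exact (minpoly.natDegree_le (a : M)).trans hm
  · rw [Set.mem_Icc, ← abs_le, ← @Int.cast_le ℝ]
    have h1 : ‖(minpoly ℚ (a : M)).coeff i‖ ≤ max B 1 ^ m * (2 ^ m : ℝ) := by
      refine (NumberField.Embeddings.coeff_bdd_of_norm_le hσ i).trans ?_
      have h2 : max B 1 ^ Module.finrank ℚ M ≤ max B 1 ^ m :=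
        pow_le_pow_right₀ (le_max_right _ _) hm
      have h3 : ((Module.finrank ℚ M).choose (Module.finrank ℚ M / 2) : ℝ) ≤ 2 ^ m := by
        have h4 : (Module.finrank ℚ M).choose (Module.finrank ℚ M / 2) ≤ 2 ^ m :=
          (Nat.choose_le_two_pow _ _).trans (Nat.pow_le_pow_right (by norm_num) hm)
        exact_mod_cast h4
      exact mul_le_mul h2 h3 (by positivity) (by positivity)
    refine (Eq.trans_le ?_ h1).trans (Nat.le_ceil _)
    rw [hmin, coeff_map, eq_intCast, Int.norm_cast_rat, Int.norm_eq_abs, Int.cast_abs]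
  · have h5 : eval₂ (algebraMap ℤ E) (ι (a : M)) (minpoly ℤ (a : M)) = 0 := by
      have h6 : eval₂ (algebraMap ℤ M) (a : M) (minpoly ℤ (a : M)) = 0 := minpoly.aeval ℤ (a : M)
      have h7 := congrArg ι h6
      rw [map_zero, hom_eval₂] at h7
      have h8 : ι.comp (algebraMap ℤ M) = algebraMap ℤ E := RingHom.ext_int _ _
      rwa [h8] at h7
    have h9 : (minpoly ℤ (a : M)).map (algebraMap ℤ E) ≠ 0 :=
      ((minpoly.monic hint).map _).ne_zero
    exact Finset.mem_coe.mpr (Multiset.mem_toFinset.mpr ((mem_roots h9).mpr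
      (by rw [IsRoot, eval_map]; exact h5)))

theorem finite_polys (E : Type*) [Field E] [CharZero E] (d m : ℕ) (c : ℝ) :
    {q : E[X] | ∃ (M : Type) (_ : Field M) (_ : NumberField M) (ι : M →+* E) (f : (𝓞 M)[X]),
      Module.finrank ℚ M ≤ m ∧ f.Monic ∧ f.natDegree = d ∧
      (∀ (σ : M →+* ℂ) (z : ℂ), f.eval₂ (σ.comp (algebraMap (𝓞 M) M)) z = 0 → ‖z‖ ≤ c) ∧
      q = f.map (ι.comp (algebraMap (𝓞 M) M))}.Finite := by
  classical
  obtain ⟨X, hX⟩ : ∃ X : Set E, X = {x : E | ∃ (M : Type) (_ : Field M) (_ : NumberField M)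
      (ι : M →+* E) (a : 𝓞 M), Module.finrank ℚ M ≤ m ∧
      (∀ σ : M →+* ℂ, ‖σ (a : M)‖ ≤ max c 1 ^ d * 2 ^ d) ∧ x = ι (a : M)} := ⟨_, rfl⟩
  have hXf : X.Finite := by
    rw [hX]
    exact finite_vals E m _
  let π : E[X] → Fin (d + 1) → E := fun f i => f.coeff i
  have key : ∀ q : E[X], (∃ (M : Type) (_ : Field M) (_ : NumberField M) (ι : M →+* E)
      (f : (𝓞 M)[X]), Module.finrank ℚ M ≤ m ∧ f.Monic ∧ f.natDegree = d ∧
      (∀ (σ : M →+* ℂ) (z : ℂ), f.eval₂ (σ.comp (algebraMap (𝓞 M) M)) z = 0 → ‖z‖ ≤ c) ∧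
      q = f.map (ι.comp (algebraMap (𝓞 M) M))) → q.natDegree ≤ d ∧ ∀ i, q.coeff i ∈ X := by
    rintro q ⟨M, _, _, ι, f, hm, hf, hd, hz, rfl⟩
    refine ⟨(natDegree_map_le).trans hd.le, fun i => ?_⟩
    rw [hX]
    refine ⟨M, inferInstance, inferInstance, ι, f.coeff i, hm, fun σ => ?_, ?_⟩
    · have h1 : (f.map (σ.comp (algebraMap (𝓞 M) M))).Splits := IsAlgClosed.splits _
      have h2 := coeff_bdd_of_roots_le (σ.comp (algebraMap (𝓞 M) M)) hf h1 hd.le
        (fun z hzr => hz σ z (by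
          have h3 := isRoot_of_mem_roots hzr
          rw [IsRoot, eval_map] at h3
          exact h3)) i
      rw [coeff_map] at h2
      refine (le_of_eq rfl).trans (h2.trans ?_)
      have h4 : (d.choose (d / 2) : ℝ) ≤ 2 ^ d := by
        exact_mod_cast Nat.choose_le_two_pow d (d / 2)
      gcongr
    · rw [coeff_map]
      rfl
  refine ((Set.Finite.pi fun _ => hXf).subset ?_).of_finite_image (?_ : Set.InjOn π _)
  · exact Set.image_subset_iff.2 fun f hf i _ => (key f hf).2 i
  · refine fun x hx y hy hxy => (ext_iff_natDegree_le (key x hx).1 (key y hy).1).2 fun i hi => ?_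
    exact id congr_fun hxy ⟨i, Nat.lt_succ_of_le hi⟩

end Pool.Agent.Helper37.Op
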