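import Mathlib.LinearAlgebra.Matrix.Charpoly.Basic
import Mathlib.LinearAlgebra.Matrix.Charpoly.Eigs
import Mathlib.FieldTheory.IsAlgClosed.AlgebraicClosure

/-!
# Project OPL (MP_6cbef8_nt), module Cong: `det (B² - (tr A) B + det A)` depends only on the characteristic polynomials
-/

set_option autoImplicit false

namespace Pool.Agent.Helper37.Op

open Matrix Polynomial

private theorem quad_factor {K : Type*} [Field K] {n : ℕ} (t δ : K)
    (B : Matrix (Fin n) (Fin n) K) {f : K →+* AlgebraicClosure K} {β : AlgebraicClosure K}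
    (h1 : β ^ 2 - f t * β + f δ = 0) :
    f ((B ^ 2 - t • B + δ • (1 : Matrix (Fin n) (Fin n) K)).det) =
      ((B.charpoly).map f).eval β * ((B.charpoly).map f).eval (f t - β) := by
  have h4 : f.mapMatrix (B ^ 2 - t • B + δ • (1 : Matrix (Fin n) (Fin n) K)) =
      (scalar (Fin n) β - B.map f) * (scalar (Fin n) (f t - β) - B.map f) := by
    have h5 : f.mapMatrix (t • B) = f t • B.map f := by
      ext i j
      simp
    have h6 : f.mapMatrix (δ • (1 : Matrix (Fin n) (Fin n) K)) =
        f δ • (1 : Matrix (Fin n) (Fin n) (AlgebraicClosure K)) := by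
      ext i j
      simp [Matrix.one_apply, apply_ite f]
    have h7 : f.mapMatrix (B ^ 2) = B.map f * B.map f := by
      rw [map_pow, pow_two]
      rfl
    have h8 : ∀ c : AlgebraicClosure K, scalar (Fin n) c = c • (1 : Matrix (Fin n) (Fin n) _) := by
      intro c
      ext i j
      simp [Matrix.one_apply, Matrix.scalar_apply, Matrix.diagonal_apply]
    rw [map_add, map_sub, h5, h6, h7, h8, h8]
    simp only [sub_mul, mul_sub, smul_mul_assoc, mul_smul_comm, one_mul, mul_one]
    have h9 : f δ = β * (f t - β) := by linear_combination h1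
    have h10 := smul_comm β (f t) (1 : Matrix (Fin n) (Fin n) (AlgebraicClosure K))
    rw [h9]
    simp only [sub_smul, mul_smul, smul_sub]
    rw [h10]
    abel
  rw [RingHom.map_det, h4, det_mul, ← eval_charpoly, ← eval_charpoly, charpoly_map]

theorem det_quad_congr {K : Type*} [Field K] {n : ℕ} {A A' : Matrix (Fin 2) (Fin 2) K}
    {B B' : Matrix (Fin n) (Fin n) K} (hA : A.charpoly = A'.charpoly)
    (hB : B.charpoly = B'.charpoly) :
    (B ^ 2 - A.trace • B + A.det • (1 : Matrix (Fin n) (Fin n) K)).det =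
      (B' ^ 2 - A'.trace • B' + A'.det • (1 : Matrix (Fin n) (Fin n) K)).det := by
  have ht : A.trace = A'.trace := by
    rw [trace_eq_neg_charpoly_coeff, trace_eq_neg_charpoly_coeff, hA]
  have hd : A.det = A'.det := by
    rw [det_eq_sign_charpoly_coeff, det_eq_sign_charpoly_coeff, hA]
  obtain ⟨f, hf⟩ : ∃ f : K →+* AlgebraicClosure K, f = algebraMap K (AlgebraicClosure K) :=
    ⟨_, rfl⟩
  obtain ⟨β, hβ⟩ : ∃ β : AlgebraicClosure K, β ^ 2 - f A'.trace * β + f A'.det = 0 := by
    have h1 : (X ^ 2 - C (f A'.trace) * X + C (f A'.det) : (AlgebraicClosure K)[X]).degree ≠ 0 := by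
      have h2 : (X ^ 2 - C (f A'.trace) * X + C (f A'.det) : (AlgebraicClosure K)[X]) =
          C 1 * X ^ 2 + C (-f A'.trace) * X + C (f A'.det) := by
        rw [C_1, C_neg]
        ring
      rw [h2, degree_quadratic one_ne_zero]
      norm_num
    obtain ⟨β, hβ⟩ := IsAlgClosed.exists_root _ h1
    refine ⟨β, ?_⟩
    simpa [IsRoot] using hβ
  apply f.injective
  rw [ht, hd, quad_factor _ _ B hβ, quad_factor _ _ B' hβ, hB]

end Pool.Agent.Helper37.Op
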