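import Pool.Agent.Helper37.Af.Main
import Pool.Agent.Helper37.Fc.PolyFun
import Pool.Agent.Helper37.Op.Open
import Pool.Agent.Helper37.Op.Cong
import Pool.Agent.Helper37.Rc.Alg
import Pool.Agent.Helper37.Rc.Quad

/-!
# Project OPL (MP_6cbef8_nt), module Core: one element decides

`Q g` is a finite set of polynomials for every `g`.  There are a finite subset `R` of `D` and one
element `r₀` of `D` such that for all `(V, T)` whose characteristic polynomials at the elements of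
`R` lie in these finite sets, a common eigenvalue of `V r₀` and `T r₀` forces `V` to be potentially
contained in `T`.
-/

set_option autoImplicit false
open MeasureTheory Polynomial

namespace Pool.Agent.Helper37.Op

open Pool.Agent.Helper27.FM Pool.Agent.Helper37.Af Pool.Agent.Helper37.Fc
  Pool.Agent.Helper37.Rc Pool.Agent.Helper37.Fd

/-- the difference of two functions with few translates has few translates -/
private theorem few_sub {E : Type*} [NontriviallyNormedField E] [IsUltrametricDist E]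
    {G : Type*} [Group G] [TopologicalSpace G] [IsTopologicalGroup G] [CompactSpace G] {k : ℕ}
    {f f' : C(G, E)} {S S' : Submodule E C(G, E)} (hS : FiniteDimensional E S)
    (hS' : FiniteDimensional E S') (hk : Module.finrank E S ≤ k)
    (hk' : Module.finrank E S' ≤ k) (hf : ∀ h, rt h f ∈ S) (hf' : ∀ h, rt h f' ∈ S') :
    ∃ S'' : Submodule E C(G, E), FiniteDimensional E S'' ∧ Module.finrank E S'' ≤ k + k ∧
      ∀ h, rt h (f - f') ∈ S'' := by
  refine ⟨S ⊔ S', inferInstance, ?_, fun h => ?_⟩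
  · exact (Submodule.finrank_add_le_finrank_add_finrank S S').trans (Nat.add_le_add hk hk')
  · have h1 : rt h (f - f') = rt h f - rt h f' := by
      ext g
      rfl
    rw [h1]
    exact Submodule.sub_mem _ (Submodule.mem_sup_left (hf h)) (Submodule.mem_sup_right (hf' h))

theorem exists_place (p : ℕ) [hp : Fact p.Prime] {E : Type*} [NontriviallyNormedField E]
    [IsUltrametricDist E] [ProperSpace E] [NormedAlgebra ℚ_[p] E] {G : Type*} [Group G]
    [TopologicalSpace G] [IsTopologicalGroup G] [CompactSpace G] [TotallyDisconnectedSpace G]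
    [MeasurableSpace G] [BorelSpace G] (μ : Measure G) [μ.IsHaarMeasure] [μ.Regular]
    (hfin : ∀ m : ℕ, {U : Subgroup G | IsOpen (U : Set G) ∧ U.index ≤ m}.Finite) {D : Set G}
    (hD : μ (closure D) ≠ 0) (n : ℕ) (Q : G → Set E[X]) (hQ : ∀ g, (Q g).Finite) :
    ∃ (R : Set G) (r₀ : G), R ⊆ D ∧ R.Finite ∧ r₀ ∈ D ∧
      ∀ (V : G →* GL (Fin 2) E) (T : G →* GL (Fin n) E),
        Continuous V → StronglyIrreducible V → Continuous T → Semisimple T →
        IdempotentGenerated p V T →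
        (∀ r ∈ R, (V r : Matrix (Fin 2) (Fin 2) E).charpoly ∈ Q r ∧
          (T r : Matrix (Fin n) (Fin n) E).charpoly ∈ Q r) →
        ¬ IsCoprime (V r₀ : Matrix (Fin 2) (Fin 2) E).charpoly
          (T r₀ : Matrix (Fin n) (Fin n) E).charpoly →
        PotentiallyContained V T := by
  classical
  have hE0 : CharZero E := charZero_of_injective_algebraMap (algebraMap ℚ_[p] E).injective
  obtain ⟨P, hP, hPe, hPn⟩ := exists_quad E n
  obtain ⟨k, hk⟩ : ∃ k, k = Module.finrank E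
    (MvPolynomial.restrictTotalDegree ((Fin 2 × Fin 2) ⊕ (Σ _ : Unit, Fin n × Fin n)) E (2 * n)) :=
    ⟨_, rfl⟩
  obtain ⟨R, O, hRD, hRf, hO, hOn, hR⟩ := open_determination p E μ hfin D (k + k)
  -- the bad pairs
  obtain ⟨Bad, hBad⟩ : ∃ Bad : Set ((G →* GL (Fin 2) E) × (G →* GL (Fin n) E)), Bad =
      {s | Continuous s.1 ∧ StronglyIrreducible s.1 ∧ Continuous s.2 ∧ Semisimple s.2 ∧
        IdempotentGenerated p s.1 s.2 ∧ (∀ r ∈ R, (s.1 r : Matrix (Fin 2) (Fin 2) E).charpoly ∈ Q r ∧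
          (s.2 r : Matrix (Fin n) (Fin n) E).charpoly ∈ Q r) ∧
        ¬ PotentiallyContained s.1 s.2} := ⟨_, rfl⟩
  let Φ : (G →* GL (Fin 2) E) × (G →* GL (Fin n) E) → R → E[X] × E[X] := fun s r =>
    ((s.1 r : Matrix (Fin 2) (Fin 2) E).charpoly, (s.2 r : Matrix (Fin n) (Fin n) E).charpoly)
  have hRfin : Finite R := hRf
  have hfinY : (Φ '' Bad).Finite := by
    refine (Set.Finite.pi (fun r : R => (hQ r).prod (hQ r))).subset ?_
    rintro _ ⟨s, hs, rfl⟩ r _
    rw [hBad] at hs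
    exact hs.2.2.2.2.2.1 r r.2
  -- a bad pair has a null set of zeros
  have hnull : ∀ s ∈ Bad, μ {g | MvPolynomial.eval (ent (s.1 g : Matrix (Fin 2) (Fin 2) E)
      (fun _ : Unit => (s.2 g : Matrix (Fin n) (Fin n) E))) P = 0} = 0 := by
    intro s hs
    rw [hBad] at hs
    obtain ⟨hV, hirr, hT, hss, hid, -, hnot⟩ := hs
    by_contra hne
    refine hnot ?_
    have hrel : PolynomiallyRelated μ s.1 (fun _ : Unit => s.2) := by
      refine ⟨P, fun h0 => hne (measure_mono_null ?_ h0)⟩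
      intro g hg
      exact ⟨hg, hPn (s.2 g) (s.1 g : Matrix (Fin 2) (Fin 2) E).det⟩
    obtain ⟨j, hj⟩ := adOccurs_of_related p μ s.1 hV hirr (fun _ : Unit => n) (fun _ => s.2)
      (fun _ => hT) hrel
    exact contained_of_adOccurs p hV hirr hT hss hid hj
  -- the functions
  have hfun : ∀ s : (G →* GL (Fin 2) E) × (G →* GL (Fin n) E), s ∈ Bad →
      ∃ (f : C(G, E)) (S : Submodule E C(G, E)), FiniteDimensional E S ∧
        Module.finrank E S ≤ k ∧ (∀ h, rt h f ∈ S) ∧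
        ∀ g, f g = MvPolynomial.eval (ent (s.1 g : Matrix (Fin 2) (Fin 2) E)
          (fun _ : Unit => (s.2 g : Matrix (Fin n) (Fin n) E))) P := by
    intro s hs
    rw [hBad] at hs
    rw [hk]
    exact exists_polyfun (J := Unit) (n := fun _ => n) (T := fun _ => s.2) hs.1
      (fun _ => hs.2.2.1) (2 * n) P hP
  -- representatives
  have hrep : ∀ y : (Φ '' Bad : Set (R → E[X] × E[X])), ∃ s, s ∈ Bad ∧ Φ s = y := fun y => y.2
  choose s hs hsΦ using hrep
  have hYfin : Finite (Φ '' Bad : Set (R → E[X] × E[X])) := hfinY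
  obtain ⟨Z, hZ⟩ : ∃ Z : (Φ '' Bad : Set (R → E[X] × E[X])) → Set G, Z = fun y =>
      {g | MvPolynomial.eval (ent ((s y).1 g : Matrix (Fin 2) (Fin 2) E)
        (fun _ : Unit => ((s y).2 g : Matrix (Fin n) (Fin n) E))) P = 0} := ⟨_, rfl⟩
  have hZn : μ (⋃ y, Z y) = 0 := by
    refine measure_iUnion_null fun y => ?_
    rw [hZ]
    exact hnull _ (hs y)
  have hZc : IsClosed (⋃ y, Z y) := by
    refine isClosed_iUnion_of_finite fun y => ?_
    obtain ⟨f, S, -, -, -, hf⟩ := hfun _ (hs y)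
    have h1 : Z y = f ⁻¹' {0} := by
      rw [hZ]
      ext g
      show _ = 0 ↔ f g = 0
      rw [hf]
    rw [h1]
    exact isClosed_singleton.preimage f.continuous
  obtain ⟨r₀, hr₀D, hr₀O, hr₀Z⟩ : ∃ r₀, r₀ ∈ D ∧ r₀ ∈ O ∧ r₀ ∉ ⋃ y, Z y := by
    obtain ⟨x, hxD, hx⟩ : ∃ x, x ∈ closure D ∧ x ∈ O ∩ (⋃ y, Z y)ᶜ := by
      by_contra hcon
      push Not at hcon
      refine hD (measure_mono_null ?_ (measure_union_null hOn hZn))
      intro x hx
      have h1 := hcon x hx
      by_cases hxO : x ∈ O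
      · refine Or.inr ?_
        by_contra h2
        exact h1 ⟨hxO, h2⟩
      · exact Or.inl ⟨hx, hxO⟩
    obtain ⟨r, hr, hrD⟩ := mem_closure_iff.mp hxD _ (hO.inter hZc.isOpen_compl) hx
    exact ⟨r, hrD, hr.1, hr.2⟩
  refine ⟨R, r₀, hRD, hRf, hr₀D, fun V T hV hirr hT hss hid hQR hcop => ?_⟩
  by_contra hnot
  have hb : (V, T) ∈ Bad := by
    rw [hBad]
    exact ⟨hV, hirr, hT, hss, hid, hQR, hnot⟩
  obtain ⟨y, hy⟩ : ∃ y : (Φ '' Bad : Set (R → E[X] × E[X])), Φ (V, T) = y :=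
    ⟨⟨Φ (V, T), _, hb, rfl⟩, rfl⟩
  obtain ⟨f, S, hS, hfr, hSf, hf⟩ := hfun _ hb
  obtain ⟨f', S', hS', hfr', hSf', hf'⟩ := hfun _ (hs y)
  obtain ⟨S'', hS'', hfr'', hSf''⟩ := few_sub hS hS' hfr hfr' hSf hSf'
  have h0 : ∀ r ∈ R, (f - f') r = 0 := by
    intro r hr
    have h1 : Φ (s y) ⟨r, hr⟩ = Φ (V, T) ⟨r, hr⟩ := by rw [hsΦ, hy]
    have h2 := congrArg Prod.fst h1
    have h3 := congrArg Prod.snd h1
    show f r - f' r = 0
    rw [hf, hf', hPe, hPe, sub_eq_zero]
    exact det_quad_congr h2.symm h3.symm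
  have h1 := hR (f - f') S'' hS'' hfr'' hSf'' h0 r₀ hr₀O
  have h2 : f r₀ = f' r₀ := sub_eq_zero.mp h1
  rw [hf, hf', hPe] at h2
  refine hr₀Z (Set.mem_iUnion.mpr ⟨y, ?_⟩)
  rw [hZ]
  show MvPolynomial.eval _ P = 0
  rw [← h2]
  exact det_quad_eq_zero _ _ hcop

end Pool.Agent.Helper37.Op
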